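import Pool.Agent.Q235.FourTermC

/-!
# The four-term inequality for normalised Dirichlet eigenvalues fails for convex potentials

For `-u'' + V u = E u`, `u(a) = u(b) = 0`, with eigenvalues `λ_1 < λ_2 < ...` and `μ_n = λ_n / n²`:
for every bounded interval `[a, b]` and every index `i ≥ 1` there is a smooth, positive, strictly
convex potential `V` with `μ_i + μ_{i+3} < μ_{i+1} + μ_{i+2}`.
-/

set_option autoImplicit false

namespace Pool.Agent.Results.MP_303525_mp.FourTermFails

open Set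

/-- `E` is a Dirichlet eigenvalue of `-d²/dx² + V` on `[a, b]`: there is a function `u`, not
identically zero on `[a, b]`, with derivative `v` and with `v' = (V - E) u` on `[a, b]`, and
`u a = u b = 0`. -/
def IsDirichletEigenvalue (V : ℝ → ℝ) (a b E : ℝ) : Prop :=
  ∃ u v : ℝ → ℝ,
    (∀ x ∈ Icc a b, HasDerivWithinAt u (v x) (Icc a b) x) ∧
    (∀ x ∈ Icc a b, HasDerivWithinAt v ((V x - E) * u x) (Icc a b) x) ∧
    u a = 0 ∧ u b = 0 ∧ ∃ x ∈ Icc a b, u x ≠ 0

/-- `lam 1 < lam 2 < ...` is the list of all Dirichlet eigenvalues of `-d²/dx² + V` on `[a, b]`. -/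
def IsDirichletSpectrum (V : ℝ → ℝ) (a b : ℝ) (lam : ℕ → ℝ) : Prop :=
  (∀ m n : ℕ, 1 ≤ m → m < n → lam m < lam n) ∧
  ∀ E : ℝ, IsDirichletEigenvalue V a b E ↔ ∃ n : ℕ, 1 ≤ n ∧ lam n = E

open Q235.FourTerm in
/-- `t ↦ 1 / sinh² t` is strictly convex on the positive half-line. -/
theorem strictConvexOn_isq : StrictConvexOn ℝ (Ioi (0 : ℝ)) fun t => 1 / Real.sinh t ^ 2 := by
  have hd : ∀ t : ℝ, 0 < t → HasDerivAt (fun t => 1 / Real.sinh t ^ 2)
      (-(2 * Real.cosh t / Real.sinh t ^ 3)) t := by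
    intro t ht
    have hs : Real.sinh t ≠ 0 := (Real.sinh_pos_iff.2 ht).ne'
    have h := ((Real.hasDerivAt_sinh t).fun_pow 2).inv (pow_ne_zero 2 hs)
    have e : (fun t => 1 / Real.sinh t ^ 2) = (fun t => Real.sinh t ^ 2)⁻¹ := by
      funext y; simp
    rw [e]
    refine h.congr_deriv ?_
    field_simp
    ring
  have hd2 : ∀ t : ℝ, 0 < t → HasDerivAt (fun t => -(2 * Real.cosh t / Real.sinh t ^ 3))
      ((6 * Real.cosh t ^ 2 - 2 * Real.sinh t ^ 2) / Real.sinh t ^ 4) t := by
    intro t ht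
    have hs : Real.sinh t ≠ 0 := (Real.sinh_pos_iff.2 ht).ne'
    have h := (((Real.hasDerivAt_cosh t).const_mul 2).div ((Real.hasDerivAt_sinh t).fun_pow 3)
      (pow_ne_zero 3 hs)).neg
    refine h.congr_deriv ?_
    field_simp
    ring
  apply StrictMonoOn.strictConvexOn_of_deriv (convex_Ioi 0)
  · intro t ht
    exact (hd t ht).continuousAt.continuousWithinAt
  · rw [interior_Ioi]
    have he : ∀ t ∈ Ioi (0 : ℝ), deriv (fun t => 1 / Real.sinh t ^ 2) t =
        -(2 * Real.cosh t / Real.sinh t ^ 3) := fun t ht => (hd t ht).deriv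
    have hm : StrictMonoOn (fun t => -(2 * Real.cosh t / Real.sinh t ^ 3)) (Ioi (0 : ℝ)) := by
      apply strictMonoOn_of_deriv_pos (convex_Ioi 0)
      · intro t ht
        exact (hd2 t ht).continuousAt.continuousWithinAt
      · intro t ht
        rw [interior_Ioi] at ht
        rw [(hd2 t ht).deriv]
        have hs : 0 < Real.sinh t := Real.sinh_pos_iff.2 ht
        have := Real.cosh_sq t
        have h2 : 0 < 6 * Real.cosh t ^ 2 - 2 * Real.sinh t ^ 2 := by nlinarith [sq_nonneg (Real.sinh t)]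
        positivity
    exact hm.congr fun t ht => (he t ht).symm

/-- **Disproof.** For every bounded interval `[a, b]` and every `i ≥ 1` there is a potential `V`,
smooth, positive and strictly convex on `[a, b]`, whose normalised Dirichlet eigenvalues
`μ_n = lam n / n²` satisfy `μ_i + μ_{i+3} < μ_{i+1} + μ_{i+2}`. -/
theorem result (a b : ℝ) (hab : a < b) (i : ℕ) (hi : 1 ≤ i) :
    ∃ V : ℝ → ℝ, ContDiffOn ℝ (⊤ : ℕ∞) V (Icc a b) ∧ (∀ x ∈ Icc a b, 0 < V x) ∧
      StrictConvexOn ℝ (Icc a b) V ∧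
      ∃ lam : ℕ → ℝ, IsDirichletSpectrum V a b lam ∧
        lam i / (i : ℝ) ^ 2 + lam (i + 3) / ((i : ℝ) + 3) ^ 2 <
          lam (i + 1) / ((i : ℝ) + 1) ^ 2 + lam (i + 2) / ((i : ℝ) + 2) ^ 2 := by
  obtain ⟨L, hL, hv⟩ := Q235.FourTerm.violation i hi
  obtain ⟨κ, hκ⟩ : ∃ κ : ℝ, κ = L / (b - a) := ⟨_, rfl⟩
  have hba : 0 < b - a := by linarith
  have hκ0 : 0 < κ := by rw [hκ]; positivity
  have hκL : κ * (b - a) = L := by rw [hκ]; field_simp
  have hz : ∀ x ∈ Icc a b, 0 < κ * (x - a) + 1 := by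
    intro x hx
    have : 0 ≤ κ * (x - a) := mul_nonneg hκ0.le (by linarith [hx.1])
    linarith
  have hs : ∀ x ∈ Icc a b, 0 < Real.sinh (κ * (x - a) + 1) := fun x hx =>
    Real.sinh_pos_iff.2 (hz x hx)
  have hVpos : ∀ x ∈ Icc a b, 0 < Q235.FourTerm.pot κ a x := by
    intro x hx
    have := hs x hx
    unfold Q235.FourTerm.pot
    positivity
  refine ⟨Q235.FourTerm.pot κ a, ?_, hVpos, ?_, ?_⟩
  · unfold Q235.FourTerm.pot
    refine ContDiffOn.div contDiffOn_const ?_ fun x hx => pow_ne_zero 2 (hs x hx).ne'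
    exact ((Real.contDiff_sinh.comp (by fun_prop)).pow 2).contDiffOn
  · refine ⟨convex_Icc a b, ?_⟩
    intro x hx y hy hxy s t hs0 ht0 hst
    have h := strictConvexOn_isq.2 (hz x hx) (hz y hy) (by
      intro h
      apply hxy
      have : κ * (x - a) = κ * (y - a) := by linarith
      have := mul_left_cancel₀ hκ0.ne' this
      linarith) hs0 ht0 hst
    have e : κ * (s • x + t • y - a) + 1 = s • (κ * (x - a) + 1) + t • (κ * (y - a) + 1) := by
      simp only [smul_eq_mul]
      linear_combination (κ * a - 1) * hst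
    unfold Q235.FourTerm.pot
    rw [e]
    have hκ2 : 0 < 2 * κ ^ 2 := by positivity
    have h2 := mul_lt_mul_of_pos_left h hκ2
    simp only [smul_eq_mul] at h2 ⊢
    calc 2 * κ ^ 2 / Real.sinh (s * (κ * (x - a) + 1) + t * (κ * (y - a) + 1)) ^ 2
        = 2 * κ ^ 2 * (1 / Real.sinh (s * (κ * (x - a) + 1) + t * (κ * (y - a) + 1)) ^ 2) := by ring
      _ < _ := h2
      _ = _ := by ring
  · refine ⟨fun n => (κ * Q235.FourTerm.root L n) ^ 2, ⟨?_, ?_⟩, ?_⟩
    · intro m n _ hmn
      have h1 := Q235.FourTerm.root_lt hL hmn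
      have h2 := Q235.FourTerm.root_nonneg L m
      exact pow_lt_pow_left₀ (mul_lt_mul_of_pos_left h1 hκ0) (mul_nonneg hκ0.le h2) (by norm_num)
    · intro E
      rcases le_or_gt E 0 with hE | hE
      · constructor
        · rintro ⟨u, v, h1, h2, h3, h4, x, hx, h5⟩
          exact absurd (Q235.FourTerm.no_nonpos hab hVpos hE ⟨h1, h2⟩ h3 h4 x hx) h5
        · rintro ⟨n, hn, h⟩
          have h1 := Q235.FourTerm.root_pos hL hn
          have h2 : 0 < (κ * Q235.FourTerm.root L n) ^ 2 := by positivity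
          linarith
      · obtain ⟨k, hk, hkE⟩ : ∃ k : ℝ, 0 < k ∧ (κ * k) ^ 2 = E := by
          refine ⟨Real.sqrt E / κ, by positivity, ?_⟩
          rw [mul_div_cancel₀ _ hκ0.ne', Real.sq_sqrt hE.le]
        have s1 := Q235.FourTerm.sol_of (a := a) (b := b) (k := k) hκ0
          (fun y hy => Q235.FourTerm.hasDerivAt_W1 k hy)
          (fun y hy => Q235.FourTerm.hasDerivAt_Z1 k hy)
        have s2 := Q235.FourTerm.sol_of (a := a) (b := b) (k := k) hκ0
          (fun y hy => Q235.FourTerm.hasDerivAt_W2 k hy)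
          (fun y hy => Q235.FourTerm.hasDerivAt_Z2 k hy)
        have hW : (fun x => Q235.FourTerm.W1 k (κ * (x - a))) a *
            (fun x => κ * Q235.FourTerm.Z2 k (κ * (x - a))) a -
            (fun x => κ * Q235.FourTerm.Z1 k (κ * (x - a))) a *
            (fun x => Q235.FourTerm.W2 k (κ * (x - a))) a ≠ 0 := by
          have := Q235.FourTerm.wr_ne hκ0 hk
          simpa using this
        have h := Q235.FourTerm.eig_iff hab s1 s2 hW
        simp only [sub_self, mul_zero, hκL] at h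
        rw [Q235.FourTerm.det_eq (by linarith), Q235.FourTerm.sin_zero_iff hL hk, hkE] at h
        have h' : IsDirichletEigenvalue (Q235.FourTerm.pot κ a) a b E ↔
            ∃ n : ℕ, 1 ≤ n ∧ Q235.FourTerm.root L n = k := by
          rw [← h]
          unfold IsDirichletEigenvalue Q235.FourTerm.Sol
          simp only [and_assoc]
        rw [h']
        constructor
        · rintro ⟨n, hn, rfl⟩
          exact ⟨n, hn, hkE⟩
        · rintro ⟨n, hn, h2⟩
          refine ⟨n, hn, ?_⟩
          rw [← hkE] at h2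
          have h3 := (sq_eq_sq₀ (mul_nonneg hκ0.le (Q235.FourTerm.root_nonneg L n))
            (mul_nonneg hκ0.le hk.le)).1 h2
          exact mul_left_cancel₀ hκ0.ne' h3
    · simp only [mul_pow, mul_div_assoc]
      rw [← mul_add, ← mul_add]
      exact mul_lt_mul_of_pos_left hv (by positivity)

end Pool.Agent.Results.MP_303525_mp.FourTermFails
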